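import Pool.Agent.Helper95_CM.StG
import Pool.Agent.Helper95_CM.Base

/-!
# CM: module DSUB (substitution `t ↦ t^D`)
-/

set_option autoImplicit false

noncomputable section

namespace Pool.Agent.Helper95_CM.H82

open MvPolynomial

section

variable {q : ℕ} {R : Type} [CommRing R] {D : ℕ}

lemma tsub_C (hD : 0 < D) (a : OO q R) :
    tsub q R D (HahnSeries.C a : LL q R) = HahnSeries.C a := by
  unfold tsub hphi
  rw [dif_pos hD]
  exact HahnSeries.embDomainRingHom_C

lemma tsub_tL (hD : 0 < D) : tsub q R D (tL q R) = tL q R ^ D := by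
  unfold tsub hphi tL tt
  rw [dif_pos hD]
  have h1 : (HahnSeries.single (1 : ℤ) (1 : OO q R)) ^ D = HahnSeries.single (D • (1 : ℤ)) 1 := by
    rw [HahnSeries.single_pow, one_pow]
  rw [h1]
  exact HahnSeries.embDomain_single

lemma tsub_coeff (hD : 0 < D) (x : LL q R) (m : ℤ) :
    (tsub q R D x).coeff ((D : ℤ) * m) = x.coeff m := by
  have := hphi_coeff (R := OO q R) hD x m
  rw [nsmul_eq_mul] at this
  exact this

lemma tsub_coeff_ne (hD : 0 < D) (x : LL q R) (m : ℤ) (h : ¬ (D : ℤ) ∣ m) :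
    (tsub q R D x).coeff m = 0 := by
  apply hphi_coeff_ne hD
  intro g' hg'
  apply h
  rw [← hg', nsmul_eq_mul]
  exact dvd_mul_right _ _

lemma thLt_tsub (hD : 0 < D) (x : LL q R) :
    thLt q R (tsub q R D x) = D • tsub q R D (thLt q R x) := by
  refine HahnSeries.ext (funext fun m => ?_)
  have e1 : (D • tsub q R D (thLt q R x)).coeff m =
      D • (tsub q R D (thLt q R x)).coeff m := by
    have := HahnSeries.coeff_nsmul (x := tsub q R D (thLt q R x)) (n := D)
    exact congrFun this m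
  rw [e1, tht_coeff]
  by_cases h : (D : ℤ) ∣ m
  · obtain ⟨m', rfl⟩ := h
    rw [tsub_coeff hD, tsub_coeff hD, tht_coeff, nsmul_eq_mul]
    push_cast
    ring
  · rw [tsub_coeff_ne hD _ _ h, tsub_coeff_ne hD _ _ h]
    simp

end

theorem dsub (h3 : Hb3Stmt) (hc : CguStmt) : DsubStmt := by
  intro n M D b A K _ _ f hG
  have hD : 0 < D := hG.hD
  have hG1 : GData n M 1 K f := ⟨hG.hn, hG.hM, le_rfl, hG.deg⟩
  have hu : IsUnit (dt A (cgen (M := M) 1 f)) :=
    isUnit_iff_ne_zero.mpr (hc n M 1 b A K f hG1).1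
  have hcg : (fun β => tsub (qG n M) K D (cgen (M := M) 1 f β)) = cgen D f := by
    funext β
    unfold cgen
    rw [map_add, map_sub, map_mul, map_mul, map_pow, pow_one, tsub_tL hD]
    have e1 : tsub (qG n M) K D (wL (qG n M) K) = wL (qG n M) K := tsub_C hD _
    have e2 : tsub (qG n M) K D (kL (qG n M) K (ftil f β)) = kL (qG n M) K (ftil f β) :=
      tsub_C hD _
    have e3 : tsub (qG n M) K D (vL (qG n M) K (gi β)) = vL (qG n M) K (gi β) := tsub_C hD _
    rw [e1, e2, e3, map_natCast]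
  have hder : ∀ x : PP n (LL (qG n M) K),
      cder (thLt (qG n M) K) (map (tsub (qG n M) K D) x) =
        C (D : LL (qG n M) K) * map (tsub (qG n M) K D) (cder (thLt (qG n M) K) x) := by
    intro x
    ext s : 1
    rw [coeff_cder, coeff_map, coeff_C_mul, coeff_map, coeff_cder, thLt_tsub hD, nsmul_eq_mul]
  have hnab : ∀ s, nab (thLt (qG n M) K) (cgen D f) (bb A (cgen D f) s) =
      C (D : LL (qG n M) K) * map (tsub (qG n M) K D)
        (nab (thLt (qG n M) K) (cgen 1 f) (bb A (cgen 1 f) s)) := by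
    intro s
    unfold nab
    rw [← hcg, ← map_bb, ← map_Fp, hder, hder, map_sub, map_mul]
    ring
  ext s' s : 2
  rw [Matrix.smul_apply, Matrix.map_apply, smul_eq_mul]
  unfold Rm
  rw [Matrix.of_apply, Matrix.of_apply, hnab, ← h3 n M b A _ _ (tsub (qG n M) K D) (cgen 1 f)
    hG.hn (by have := hG.hM; omega) hu, hcg, ← smul_eq_C_mul, map_smul]
  rfl

end Pool.Agent.Helper95_CM.H82
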