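import Pool.Agent.Helper95_CM.StG

/-!
# CM: module INT (the integral over the cube is the formal moment)
-/

set_option autoImplicit false

noncomputable section

namespace Pool.Agent.Helper95_CM.H82

open MvPolynomial MeasureTheory

lemma int_pow (m : ℕ) : ∫ x in Set.Icc (0 : ℝ) 1, ((x : ℝ) : ℂ) ^ m = ((m + 1 : ℕ) : ℂ)⁻¹ := by
  have h1 : ∫ x in Set.Icc (0 : ℝ) 1, ((x : ℝ) : ℂ) ^ m =
      ((∫ x in (0 : ℝ)..1, x ^ m : ℝ) : ℂ) := by
    rw [integral_Icc_eq_integral_Ioc, ← intervalIntegral.integral_of_le (by norm_num),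
      ← intervalIntegral.integral_ofReal]
    simp
  rw [h1, integral_pow]
  push_cast
  simp

lemma int_mon (n : ℕ) (u : Fin n → ℕ) :
    ∫ x in Set.Icc (0 : Fin n → ℝ) 1, ∏ k, (((x k : ℝ) : ℂ)) ^ u k =
      ∏ k, ((u k + 1 : ℕ) : ℂ)⁻¹ := by
  have h1 : (volume : Measure (Fin n → ℝ)).restrict (Set.Icc (0 : Fin n → ℝ) 1) =
      Measure.pi (fun _ : Fin n => (volume : Measure ℝ).restrict (Set.Icc (0 : ℝ) 1)) := by
    rw [← Set.pi_univ_Icc, volume_pi, Measure.restrict_pi_pi]
    rfl
  rw [h1, integral_fintype_prod_eq_prod (fun (k : Fin n) (y : ℝ) => ((y : ℝ) : ℂ) ^ u k)]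
  exact Finset.prod_congr rfl fun k _ => int_pow (u k)

theorem int : IntStmt := by
  classical
  intro n f
  unfold Mom
  have h1 : ∀ x : Fin n → ℝ, eval (fun i => ((x i : ℝ) : ℂ)) f =
      f.support.sum fun u => coeff u f * ∏ k, (((x k : ℝ) : ℂ)) ^ u k := by
    intro x
    rw [MvPolynomial.eval_eq']
  simp only [h1]
  rw [integral_finsetSum]
  · refine Finset.sum_congr rfl fun u _ => ?_
    rw [integral_const_mul, int_mon]
  · intro u _
    refine Continuous.integrableOn_Icc ?_
    refine continuous_const.mul ?_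
    refine continuous_finsetProd _ fun k _ => ?_
    exact (Complex.continuous_ofReal.comp (continuous_apply k)).pow _

end Pool.Agent.Helper95_CM.H82
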